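import Pool.Agent.Helper52.BP.Sheet

/-! # Row EMB of the project BP (`MP_de6334_lc`)

The generalized inner product is a restriction of the function `f n`.
-/

set_option autoImplicit false

namespace Pool.Helper52.BP

open Finset

theorem emb_digits (k a : ℕ) :
    ∑ b ∈ range k, (if a.testBit b = true then 2 ^ b else 0) = a % 2 ^ k := by
  induction k with
  | zero => simp [Nat.mod_one]
  | succ k ih =>
    rw [sum_range_succ, ih, Nat.mod_pow_succ, Nat.testBit_eq_decide_div_mod_eq]
    rcases Nat.mod_two_eq_zero_or_one (a / 2 ^ k) with h | h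
    · rw [h]; simp
    · rw [h]; simp

theorem emb_log {n : ℕ} (hn : 64 ≤ n) : 5 ≤ kk n ∧ 2 * 2 ^ kk n ≤ n := by
  have h1 : 6 ≤ Nat.log 2 n := Nat.le_log_of_pow_le (by norm_num) (by norm_num; exact hn)
  have h2 : 2 ^ (Nat.log 2 n) ≤ n := Nat.pow_log_le_self 2 (by omega)
  have h3 : Nat.log 2 n = kk n + 1 := by unfold kk; omega
  rw [h3, pow_succ] at h2
  refine ⟨by unfold kk; omega, by omega⟩

theorem emb_idx {k L N l j b : ℕ} (hL : L * k ^ 2 ≤ N) (hl : l < L) (hj : j < k) (hb : b < k) :
    (l * k + j) * k + b < N ∧ ((l * k + j) * k + b) % k = b ∧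
      ((l * k + j) * k + b) / k / k = l ∧ ((l * k + j) * k + b) / k % k = j := by
  have hk : 0 < k := by omega
  have h1 : ((l * k + j) * k + b) / k = l * k + j := by
    rw [Nat.add_comm, Nat.add_mul_div_right _ _ hk, Nat.div_eq_of_lt hb, zero_add]
  have h2 : (l * k + j) / k = l := by
    rw [Nat.add_comm, Nat.add_mul_div_right _ _ hk, Nat.div_eq_of_lt hj, zero_add]
  have h3 : (l * k + j) % k = j := by
    rw [Nat.add_comm, Nat.add_mul_mod_self_right, Nat.mod_eq_of_lt hj]
  refine ⟨?_, ?_, ?_, ?_⟩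
  · have h4 : l * k + j + 1 ≤ (l + 1) * k := by
      rw [add_mul, one_mul]
      omega
    have h5 : (l * k + j + 1) * k ≤ (l + 1) * k * k := Nat.mul_le_mul_right _ h4
    have h6 : (l + 1) * k ^ 2 ≤ L * k ^ 2 := Nat.mul_le_mul_right _ hl
    have h7 : (l + 1) * k * k = (l + 1) * k ^ 2 := by ring
    have h8 : (l * k + j + 1) * k = (l * k + j) * k + k := by ring
    omega
  · rw [Nat.add_comm, Nat.add_mul_mod_self_right, Nat.mod_eq_of_lt hb]
  · rw [h1, h2]
  · rw [h1, h3]

theorem emb_free {n q s N : ℕ} (e : Fin q × Fin s → Fin n) (h : q * s < N) :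
    ∃ v0, v0 < N ∧ ∀ p, (e p : ℕ) ≠ v0 := by
  classical
  by_contra hcon
  push Not at hcon
  have h1 : range N ⊆ univ.image (fun p => (e p : ℕ)) := by
    intro x hx
    obtain ⟨p, hp⟩ := hcon x (mem_range.1 hx)
    exact mem_image.2 ⟨p, mem_univ p, hp⟩
  have h2 := card_le_card h1
  have h3 : (univ.image (fun p => (e p : ℕ))).card ≤ q * s := by
    refine card_image_le.trans ?_
    rw [card_univ, Fintype.card_prod, Fintype.card_fin, Fintype.card_fin]
  rw [card_range] at h2
  omega

theorem st_EMB : ST_EMB := by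
  classical
  intro n q s e hn hq hqk hs hqs he hlt
  obtain ⟨hk5, hN2⟩ := emb_log hn
  obtain ⟨v0, hv0, hv0e⟩ := emb_free e hqs
  have hLL : LL n * kk n ^ 2 ≤ 2 ^ kk n := Nat.div_mul_le_self _ _
  -- the addresses
  obtain ⟨A, hA1, hA2⟩ : ∃ A : ℕ → ℕ → ℕ,
      (∀ (l : ℕ) (hl : l < s) (j : ℕ),
        A l j = (e (⟨min j (q - 1), by omega⟩, ⟨l, hl⟩) : ℕ)) ∧
      ∀ l j, ¬ l < s → A l j = v0 := by
    refine ⟨fun l j => if h : l < s then (e (⟨min j (q - 1), by omega⟩, ⟨l, h⟩) : ℕ) else v0,
      ?_, ?_⟩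
    · intro l hl j
      exact dif_pos hl
    · intro l j hl
      exact dif_neg hl
  have hA : ∀ l j, A l j < 2 ^ kk n := by
    intro l j
    by_cases hl : l < s
    · rw [hA1 l hl]
      exact hlt _
    · rw [hA2 l j hl]
      exact hv0
  let io : (Fin q → Fin s → Bool) → (Fin n → Bool) := fun u v =>
    if (v : ℕ) < 2 ^ kk n then (if h : ∃ p, e p = v then u h.choose.1 h.choose.2 else false)
    else (A (((v : ℕ) - 2 ^ kk n) / kk n / kk n) (((v : ℕ) - 2 ^ kk n) / kk n % kk n)).testBit
      (((v : ℕ) - 2 ^ kk n) % kk n)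
  refine ⟨io, ?_, ?_⟩
  · intro u u' v h
    simp only [io]
    split_ifs with h1 h2
    · exact h _ h2.choose_spec
    · rfl
    · rfl
  · intro u
    have hbit : ∀ l < LL n, ∀ j < kk n, ∀ b < kk n,
        bit (io u) (2 ^ kk n + ((l * kk n + j) * kk n + b)) = (A l j).testBit b := by
      intro l hl j hj b hb
      obtain ⟨i1, i2, i3, i4⟩ := emb_idx hLL hl hj hb
      have h1 : 2 ^ kk n + ((l * kk n + j) * kk n + b) < n := by omega
      unfold bit
      rw [dif_pos h1]
      simp only [io]
      rw [if_neg (by omega), Nat.add_sub_cancel_left, i2, i3, i4]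
    have haddr : ∀ l < LL n, ∀ j < kk n, addr (io u) l j = A l j := by
      intro l hl j hj
      unfold addr
      rw [sum_congr rfl fun b hb => by rw [hbit l hl j hj b (mem_range.1 hb)], emb_digits,
        Nat.mod_eq_of_lt (hA l j)]
    have hio : ∀ p, bit (io u) (e p : ℕ) = u p.1 p.2 := by
      intro p
      unfold bit
      rw [dif_pos (e p).2]
      have hex : ∃ p', e p' = (⟨(e p : ℕ), (e p).2⟩ : Fin n) := ⟨p, rfl⟩
      have h1 : hex.choose = p := he hex.choose_spec
      simp only [io]
      rw [if_pos (hlt p), dif_pos hex, h1]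
    have hio0 : bit (io u) v0 = false := by
      have h1 : v0 < n := by omega
      unfold bit
      rw [dif_pos h1]
      simp only [io]
      rw [if_pos hv0, dif_neg]
      rintro ⟨p, hp⟩
      exact hv0e p (congrArg Fin.val hp)
    have hset : (range (LL n)).filter
        (fun l => ∀ j < kk n, bit (io u) (addr (io u) l j) = true) =
        (univ.filter (fun l : Fin s => ∀ j, u j l = true)).map Fin.valEmbedding := by
      ext l
      simp only [mem_filter, mem_range, mem_map, mem_univ, true_and, Fin.valEmbedding_apply]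
      constructor
      · rintro ⟨hl, h⟩
        by_cases hls : l < s
        · refine ⟨⟨l, hls⟩, fun j => ?_, rfl⟩
          have hjk : (j : ℕ) < kk n := lt_of_lt_of_le j.2 hqk
          have h1 := h j hjk
          rw [haddr l hl _ hjk, hA1 l hls, hio] at h1
          have h2 : (⟨min (j : ℕ) (q - 1), by omega⟩ : Fin q) = j := by
            apply Fin.ext
            change min (j : ℕ) (q - 1) = j
            have := j.2
            omega
          rw [h2] at h1
          exact h1
        · exfalso
          have h1 := h 0 (by omega)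
          rw [haddr l hl 0 (by omega), hA2 l 0 hls, hio0] at h1
          exact Bool.false_ne_true h1
      · rintro ⟨l', h, rfl⟩
        have hl : (l' : ℕ) < LL n := lt_of_lt_of_le l'.2 hs
        refine ⟨hl, fun j hj => ?_⟩
        rw [haddr _ hl j hj, hA1 _ l'.2, hio]
        exact h _
    unfold f ones
    rw [hset, card_map]

end Pool.Helper52.BP
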