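import Pool.Agent.Helper52.BP.Sheet2
import Pool.Agent.Helper49.BP.EMB

/-! # Row TW2 of the project BP (`MP_de6334_lc`)

A program for `f n` makes at least `LL n` steps.
-/

set_option autoImplicit false

namespace Pool.Helper52.BP

open Finset

namespace S49

theorem sq_le {k : ℕ} (hk : 4 ≤ k) : k ^ 2 ≤ 2 ^ k := by
  induction k, hk using Nat.le_induction with
  | base => norm_num
  | succ k hk ih =>
    have h1 : 2 ^ (k + 1) = 2 * 2 ^ k := by rw [pow_succ]; ring
    have h2 : 2 * k + 1 ≤ k ^ 2 := by nlinarith
    have h3 : (k + 1) ^ 2 = k ^ 2 + (2 * k + 1) := by ring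
    rw [h1, h3]
    omega

theorem LL_pos {n : ℕ} (hn : 64 ≤ n) : 1 ≤ LL n := by
  obtain ⟨hk, _⟩ := emb_log hn
  exact Nat.div_pos (sq_le (by omega)) (by positivity)

theorem LL_lt {n : ℕ} (hn : 64 ≤ n) : LL n < 2 ^ kk n := by
  obtain ⟨hk, _⟩ := emb_log hn
  refine Nat.div_lt_self (by positivity) ?_
  nlinarith

theorem st_succ {n V : ℕ} (B : BP n V) (z : Fin n → Bool) (t : ℕ) :
    B.st z (t + 1) = B.step z (B.st z t) := Function.iterate_succ_apply' _ _ _

theorem run_congr {n V : ℕ} (B : BP n V) (z z' : Fin n → Bool) (T : ℕ)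
    (h : ∀ t < T, ∀ x, B.lab (B.st z t) = some x → z x = z' x) :
    ∀ t ≤ T, B.st z t = B.st z' t := by
  intro t
  induction t with
  | zero => intro _; rfl
  | succ t ih =>
    intro ht
    rw [st_succ, st_succ, ← ih (by omega)]
    unfold BP.step
    cases hl : B.lab (B.st z t) with
    | none => rfl
    | some x =>
      change B.next _ (z x) = B.next _ (z' x)
      rw [h t (by omega) x hl]

/-- an element that is not read -/
theorem exists_unread {n V s T : ℕ} (B : BP n V) (z : Fin n → Bool) (e : Fin s → Fin n)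
    (he : Function.Injective e) (hT : T < s) :
    ∃ l : Fin s, ∀ t < T, B.lab (B.st z t) ≠ some (e l) := by
  classical
  by_contra hcon
  push Not at hcon
  choose g hg1 hg2 using hcon
  have h1 : Function.Injective fun l : Fin s => (⟨g l, hg1 l⟩ : Fin T) := by
    intro l l' h
    have h2 : g l = g l' := congrArg Fin.val h
    have h3 := hg2 l
    rw [h2, hg2 l'] at h3
    exact he (Option.some.inj h3).symm
  have h4 := Fintype.card_le_of_injective _ h1
  rw [Fintype.card_fin, Fintype.card_fin] at h4
  omega

end S49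

open S49 in
theorem st_TW2 (hE : ST_EMB) : ST_TW2 := by
  classical
  intro n V T B hn hB
  obtain ⟨hk, hN⟩ := emb_log hn
  have hpos := LL_pos hn
  have hlt := LL_lt hn
  let e0 : Fin (LL n) → Fin n := fun l => ⟨l, by have := l.2; omega⟩
  have he0 : Function.Injective e0 := by
    intro l l' h
    have h1 : (e0 l : ℕ) = (e0 l' : ℕ) := congrArg Fin.val h
    exact Fin.ext h1
  obtain ⟨io, hio1, hio2⟩ := hE n 1 (LL n) (fun p => e0 p.2) hn le_rfl (by omega) le_rfl
    (by omega) (by
      intro p p' h
      exact Prod.ext (Subsingleton.elim _ _) (he0 h)) (by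
      intro p
      have := p.2.2
      change (p.2 : ℕ) < _
      omega)
  -- all arguments are true, and the same with one argument changed
  let u1 : Fin 1 → Fin (LL n) → Bool := fun _ _ => true
  let u2 : Fin (LL n) → Fin 1 → Fin (LL n) → Bool := fun l _ l' => decide (l' ≠ l)
  have o1 : ones u1 = LL n := by
    unfold ones
    rw [filter_true_of_mem, card_univ, Fintype.card_fin]
    intro l _ j
    rfl
  have o2 : ∀ l, ones (u2 l) = LL n - 1 := by
    intro l
    unfold ones
    have h1 : (univ.filter fun l' : Fin (LL n) => ∀ j, u2 l j l' = true) = univ.erase l := by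
      ext l'
      simp [u2]
    rw [h1, card_erase_of_mem (mem_univ l), card_univ, Fintype.card_fin]
  have hne : ∀ l, f n (io u1) ≠ f n (io (u2 l)) := by
    intro l h
    rw [hio2, hio2, o1, o2, decide_eq_decide] at h
    omega
  have hagree : ∀ l x, x ≠ e0 l → io u1 x = io (u2 l) x := by
    intro l x hx
    apply hio1
    rintro ⟨j, l'⟩ hp
    have h1 : l' ≠ l := by
      rintro rfl
      exact hx hp.symm
    change true = decide (l' ≠ l)
    rw [decide_eq_true h1]
  constructor
  · by_contra hT
    push Not at hT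
    obtain ⟨l, hl⟩ := exists_unread B (io u1) e0 he0 hT
    apply hne l
    rw [← hB, ← hB, run_congr B (io u1) (io (u2 l)) T ?_ T le_rfl]
    intro t ht x hx
    apply hagree
    rintro rfl
    exact hl t ht hx
  · by_contra hV
    push Not at hV
    apply hne ⟨0, hpos⟩
    rw [← hB, ← hB]
    have h1 : B.st (io u1) T = B.st (io (u2 ⟨0, hpos⟩)) T := by
      have a1 := (B.st (io u1) T).2
      have a2 := (B.st (io (u2 ⟨0, hpos⟩)) T).2
      apply Fin.ext
      omega
    rw [h1]

end Pool.Helper52.BP
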